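import Pool.Agent.W434.NUM.Stm

/-!
# A clock with finite memory
-/

set_option autoImplicit false

namespace Pool.Agent.W885.NUM

open Pool.Agent.W434.NUM

variable {n : ℕ}

/-! ### Finite memory -/

theorem Per_congr {l p : ℕ} {h h' : ℕ → Fin n} (H : ∀ t < l, h t = h' t) :
    Per l p h ↔ Per l p h' := by
  unfold Per
  constructor
  · intro hp t ht
    rw [← H t (by omega), ← H (t + p) ht]
    exact hp t ht
  · intro hp t ht
    rw [H t (by omega), H (t + p) ht]
    exact hp t ht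

theorem ex_congr {K : ℕ} (hK : 1 ≤ K) {h h' : ℕ → Fin n} (H : ∀ t < 2 * K, h t = h' t) :
    ex (2 * K) K h = ex (2 * K) K h' := by
  classical
  unfold ex
  split_ifs with H1 H2 H2
  · have e : Nat.find H1 = Nat.find H2 := by
      apply le_antisymm
      · apply Nat.find_min'
        obtain ⟨a1, a2, a3⟩ := Nat.find_spec H2
        exact ⟨a1, a2, (Per_congr H).2 a3⟩
      · apply Nat.find_min'
        obtain ⟨a1, a2, a3⟩ := Nat.find_spec H1
        exact ⟨a1, a2, (Per_congr H).1 a3⟩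
    rw [← e]
    apply H
    have := (Nat.find_spec H1).2.1
    omega
  · exfalso
    apply H2
    obtain ⟨p, a1, a2, a3⟩ := H1
    exact ⟨p, a1, a2, (Per_congr H).1 a3⟩
  · exfalso
    apply H1
    obtain ⟨p, a1, a2, a3⟩ := H2
    exact ⟨p, a1, a2, (Per_congr H).2 a3⟩
  · exact H 0 (by omega)

theorem Exc_congr {K : ℕ} (hK : 1 ≤ K) {h h' : ℕ → Fin n} {s : ℕ}
    (H : ∀ t < s + 2 * K + 1, h t = h' t) : Exc (2 * K) K h s ↔ Exc (2 * K) K h' s := by
  unfold Exc
  rw [H s (by omega), ex_congr hK (h := shf h (s + 1)) (h' := shf h' (s + 1))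
    (fun t ht => H _ (by omega))]

theorem col_congr {l : ℕ} {h h' : ℕ → Fin n} {i : ℕ} (H : ∀ t < i + l, h t = h' t) :
    col l h i = col l h' i := by
  unfold col
  refine Finset.sum_congr rfl fun t ht => ?_
  rw [Finset.mem_range] at ht
  rw [H (i + t) (by omega)]

theorem Mk_congr {K : ℕ} (hK : 1 ≤ K) {h h' : ℕ → Fin n} {s : ℕ}
    (H : ∀ t < s + 3 * K + 1, h t = h' t) : Mk (2 * K) K h s ↔ Mk (2 * K) K h' s := by
  unfold Mk
  refine or_congr (Exc_congr hK fun t ht => H t (by omega)) (and_congr ?_ ?_)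
  · refine forall_congr' fun r => forall_congr' fun h1 => forall_congr' fun _ => ?_
    exact not_congr (Exc_congr hK fun t ht => H t (by omega))
  · refine forall_congr' fun r => forall_congr' fun _ => forall_congr' fun h1 =>
      forall_congr' fun _ => ?_
    rw [col_congr (l := 2 * K) (i := s) fun t ht => H t (by omega),
      col_congr (l := 2 * K) (i := r) fun t ht => H t (by omega)]

theorem shf_hc (j : Fin n) (h : ℕ → Fin n) (s : ℕ) : shf (hc j h) (s + 1) = shf h s := by
  funext t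
  unfold shf
  rw [show t + (s + 1) = (t + s) + 1 by omega]
  rfl

theorem shf_zero (h : ℕ → Fin n) : shf h 0 = h := rfl

theorem Exc_zero {l K : ℕ} (j : Fin n) (h : ℕ → Fin n) :
    Exc l K (hc j h) 0 ↔ j = ex l K h := by
  unfold Exc
  rw [show 0 + 1 = 0 + 1 from rfl, shf_hc, shf_zero]
  exact Iff.rfl

theorem Exc_succ {l K : ℕ} (j : Fin n) (h : ℕ → Fin n) (s : ℕ) :
    Exc l K (hc j h) (s + 1) ↔ Exc l K h s := by
  unfold Exc
  rw [shf_hc]
  exact Iff.rfl

/-! ### The greatest and the least element -/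

theorem exists_greatest (P : ℕ → Prop) (Δ : ℕ) (h : ∃ s, s < Δ ∧ P s) :
    ∃ s, s < Δ ∧ P s ∧ ∀ t, s < t → t < Δ → ¬ P t := by
  classical
  induction Δ with
  | zero =>
    obtain ⟨s, hs, _⟩ := h
    omega
  | succ m ih =>
    by_cases hm : P m
    · exact ⟨m, by omega, hm, fun t h1 h2 => by omega⟩
    · obtain ⟨s, hs, hP⟩ := h
      have hsm : s ≠ m := fun e => hm (e ▸ hP)
      obtain ⟨s', h1, h2, h3⟩ := ih ⟨s, by omega, hP⟩
      refine ⟨s', by omega, h2, fun t ht1 ht2 => ?_⟩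
      by_cases htm : t = m
      · rw [htm]
        exact hm
      · exact h3 t ht1 (by omega)

theorem exists_least (P : ℕ → Prop) (h : ∃ s, P s) : ∃ s, P s ∧ ∀ t, t < s → ¬ P t := by
  classical
  exact ⟨Nat.find h, Nat.find_spec h, fun t ht => Nat.find_min h ht⟩

/-! ### The specification of the clock -/

/-- the clock shows the age `i` of a cycle of length `g` -/
def Spec (K D : ℕ) (h : ℕ → Fin n) (g i : ℕ) : Prop :=
  (i < K + D + 1 ∧ Exc (2 * K) K h i ∧ (∀ b, b < i → ¬ Exc (2 * K) K h b) ∧ g = K + D + 1) ∨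
  ((∀ a, a < K + D + 1 → ¬ Exc (2 * K) K h a) ∧ ∃ q q' : ℕ, K + D + 1 ≤ q ∧ q ≤ K + D + 1 + D ∧
    Mk (2 * K) K h q ∧ (∀ s, K + D + 1 ≤ s → s < q → ¬ Mk (2 * K) K h s) ∧ K ≤ q' ∧
    q' < K + D + 1 ∧ Mk (2 * K) K h q' ∧ (∀ s, q' < s → s < K + D + 1 → ¬ Mk (2 * K) K h s) ∧
    g = q - q' ∧ i = q - (K + D + 1))

theorem Spec_exists {K D : ℕ} {h : ℕ → Fin n}
    (h3 : ∀ i, (∀ s, i ≤ s → s ≤ i + D → ¬ Exc (2 * K) K h s) →
      ∃ i', i ≤ i' ∧ i' ≤ i + D ∧ Mk (2 * K) K h i') : ∃ g i, Spec K D h g i := by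
  by_cases hE : ∃ a, a < K + D + 1 ∧ Exc (2 * K) K h a
  · obtain ⟨a, ha, hEa⟩ := hE
    obtain ⟨b, hb, hmin⟩ := exists_least (fun b => Exc (2 * K) K h b) ⟨a, hEa⟩
    refine ⟨K + D + 1, b, Or.inl ⟨?_, hb, hmin, rfl⟩⟩
    by_contra hc
    exact hmin a (by omega) hEa
  · have hN : ∀ a, a < K + D + 1 → ¬ Exc (2 * K) K h a := fun a ha hEa => hE ⟨a, ha, hEa⟩
    have hq : ∃ q, K + D + 1 ≤ q ∧ q ≤ K + D + 1 + D ∧ Mk (2 * K) K h q := by
      by_cases hx : ∃ s, K + D + 1 ≤ s ∧ s ≤ K + D + 1 + D ∧ Exc (2 * K) K h s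
      · obtain ⟨s, h1, h2, hs⟩ := hx
        exact ⟨s, h1, h2, Or.inl hs⟩
      · exact h3 (K + D + 1) fun s h1 h2 hs => hx ⟨s, h1, h2, hs⟩
    obtain ⟨q₀, h1, h2, hq₀⟩ := hq
    obtain ⟨q, ⟨hq1, hq2⟩, hmin⟩ :=
      exists_least (fun q => K + D + 1 ≤ q ∧ Mk (2 * K) K h q) ⟨q₀, h1, hq₀⟩
    have hq3 : q ≤ K + D + 1 + D := by
      by_contra hc
      exact hmin q₀ (by omega) ⟨h1, hq₀⟩
    obtain ⟨i', a1, a2, a3⟩ := h3 K fun s _ hs2 => hN s (by omega)
    obtain ⟨q', b1, b2, b3⟩ := exists_greatest (fun s => Mk (2 * K) K h s) (K + D + 1)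
      ⟨i', by omega, a3⟩
    have hKq' : K ≤ q' := by
      by_contra hc
      exact b3 i' (by omega) (by omega) a3
    exact ⟨q - q', q - (K + D + 1), Or.inr ⟨hN, q, q', hq1, hq3, hq2,
      fun s hs1 hs2 hs3 => hmin s hs2 ⟨hs1, hs3⟩, hKq', b1, b2, b3, rfl, rfl⟩⟩

theorem Spec_unique {K D : ℕ} {h : ℕ → Fin n} {g i g' i' : ℕ} (h1 : Spec K D h g i)
    (h2 : Spec K D h g' i') : g = g' ∧ i = i' := by
  rcases h1 with ⟨a1, a2, a3, a4⟩ | ⟨a0, q, q', a1, a2, a3, a4, a5, a6, a7, a8, a9, a10⟩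
  · rcases h2 with ⟨b1, b2, b3, b4⟩ | ⟨b0, _⟩
    · refine ⟨by omega, ?_⟩
      rcases lt_trichotomy i i' with h | h | h
      · exact absurd a2 (b3 i h)
      · exact h
      · exact absurd b2 (a3 i' h)
    · exact absurd a2 (b0 i a1)
  · rcases h2 with ⟨b1, b2, b3, b4⟩ | ⟨b0, r, r', b1, b2, b3, b4, b5, b6, b7, b8, b9, b10⟩
    · exact absurd b2 (a0 i' b1)
    · have e1 : q = r := by
        rcases lt_trichotomy q r with h | h | h
        · exact absurd a3 (b4 q a1 h)
        · exact h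
        · exact absurd b3 (a4 r b1 h)
      have e2 : q' = r' := by
        rcases lt_trichotomy q' r' with h | h | h
        · exact absurd b7 (a8 r' h b6)
        · exact h
        · exact absurd a7 (b8 q' h a6)
      subst e1 e2
      exact ⟨by omega, by omega⟩

theorem Spec_congr {K D : ℕ} (hK : 1 ≤ K) {h h' : ℕ → Fin n} {g i : ℕ}
    (H : ∀ t < K + D + 1 + D + 3 * K + 1, h t = h' t) (hs : Spec K D h g i) :
    Spec K D h' g i := by
  have hE : ∀ s, s ≤ K + D + 1 → (Exc (2 * K) K h s ↔ Exc (2 * K) K h' s) := fun s hs =>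
    Exc_congr hK fun t ht => H t (by omega)
  have hM : ∀ s, s ≤ K + D + 1 + D → (Mk (2 * K) K h s ↔ Mk (2 * K) K h' s) := fun s hs =>
    Mk_congr hK fun t ht => H t (by omega)
  rcases hs with ⟨a1, a2, a3, a4⟩ | ⟨a0, q, q', a1, a2, a3, a4, a5, a6, a7, a8, a9, a10⟩
  · exact Or.inl ⟨a1, (hE i (by omega)).1 a2,
      fun b hb hc => a3 b hb ((hE b (by omega)).2 hc), a4⟩
  · exact Or.inr ⟨fun a ha hc => a0 a ha ((hE a (by omega)).2 hc), q, q', a1, a2,
      (hM q (by omega)).1 a3, fun s h1 h2 hc => a4 s h1 h2 ((hM s (by omega)).2 hc), a5, a6,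
      (hM q' (by omega)).1 a7, fun s h1 h2 hc => a8 s h1 h2 ((hM s (by omega)).2 hc), a9, a10⟩

theorem clock (h : S_mk) : S_clock := by
  intro n K hn hK
  obtain ⟨D, hD⟩ := h n K hn hK
  have hex : ∀ h : ℕ → Fin n, ∃ g i, Spec K D h g i := fun h => Spec_exists (hD h).2.2
  choose g i hgi using hex
  refine ⟨K + D + 1 + D + 3 * K + 1, fun h => ex (2 * K) K h, g, i, ?_, ?_, ?_, ?_⟩
  · intro h h' H
    exact Spec_unique (Spec_congr hK H (hgi h)) (hgi h')
  · intro h
    rcases hgi h with ⟨a1, a2, a3, a4⟩ | ⟨a0, q, q', a1, a2, a3, a4, a5, a6, a7, a8, a9, a10⟩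
    · exact ⟨by omega, by omega⟩
    · have := (hD h).2.1 q q' (by omega) a3 a7 (a0 q' a6)
      exact ⟨by omega, by omega⟩
  · intro h j hj
    have hE0 : ¬ Exc (2 * K) K (hc j h) 0 := fun hc => hj ((Exc_zero j h).1 hc)
    have hMs := (hD h).1 j
    rcases hgi h with ⟨a1, a2, a3, a4⟩ | ⟨a0, q, q', a1, a2, a3, a4, a5, a6, a7, a8, a9, a10⟩
    · by_cases hlt : i h + 1 < K + D + 1
      · left
        have hs : Spec K D (hc j h) (K + D + 1) (i h + 1) := by
          refine Or.inl ⟨hlt, (Exc_succ j h _).2 a2, ?_, rfl⟩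
          intro b hb
          rcases b with _ | b
          · exact hE0
          · rw [Exc_succ]
            exact a3 b (by omega)
        obtain ⟨e1, e2⟩ := Spec_unique (hgi (hc j h)) hs
        exact ⟨by omega, by omega, e2⟩
      · right
        refine ⟨by omega, ?_⟩
        have hx : Exc (2 * K) K (hc j h) (K + D + 1) := by
          have e : K + D + 1 = i h + 1 := by omega
          rw [e]
          exact (Exc_succ j h _).2 a2
        rcases hgi (hc j h) with ⟨b1, b2, b3, b4⟩ |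
          ⟨b0, r, r', b1, b2, b3, b4, b5, b6, b7, b8, b9, b10⟩
        · exfalso
          rcases hi : i (hc j h) with _ | b
          · rw [hi] at b2
            exact hE0 b2
          · rw [hi] at b1 b2
            exact a3 b (by omega) ((Exc_succ j h _).1 b2)
        · have : r = K + D + 1 := by
            by_contra hne
            exact b4 (K + D + 1) le_rfl (by omega) (Or.inl hx)
          omega
    · have hnE : ∀ a, a ≤ K + D + 1 → ¬ Exc (2 * K) K (hc j h) a := by
        intro a ha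
        rcases a with _ | a
        · exact hE0
        · rw [Exc_succ]
          exact a0 a (by omega)
      rcases hgi (hc j h) with ⟨b1, b2, b3, b4⟩ |
          ⟨b0, r, r', b1, b2, b3, b4, b5, b6, b7, b8, b9, b10⟩
      · exact absurd b2 (hnE _ (by omega))
      · by_cases hlt : q' + 1 < K + D + 1
        · left
          have hMq : Mk (2 * K) K (hc j h) (q + 1) := (hMs q (by omega)).2 a3
          have hMq' : Mk (2 * K) K (hc j h) (q' + 1) := (hMs q' (by omega)).2 a7
          have e1 : r = q + 1 := by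
            rcases lt_trichotomy r (q + 1) with hr | hr | hr
            · exfalso
              obtain ⟨t, rfl⟩ : ∃ t, r = t + 1 := ⟨r - 1, by omega⟩
              have hMt := (hMs t (by omega)).1 b3
              by_cases ht : t < K + D + 1
              · exact a8 t (by omega) ht hMt
              · exact a4 t (by omega) (by omega) hMt
            · exact hr
            · exact absurd hMq (b4 (q + 1) (by omega) hr)
          have e2 : r' = q' + 1 := by
            rcases lt_trichotomy r' (q' + 1) with hr | hr | hr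
            · exact absurd hMq' (b8 (q' + 1) hr hlt)
            · exact hr
            · exfalso
              obtain ⟨t, rfl⟩ : ∃ t, r' = t + 1 := ⟨r' - 1, by omega⟩
              exact a8 t (by omega) (by omega) ((hMs t (by omega)).1 b7)
          exact ⟨by omega, by omega, by omega⟩
        · right
          have hq' : q' + 1 = K + D + 1 := by omega
          have hMq' : Mk (2 * K) K (hc j h) (q' + 1) := (hMs q' (by omega)).2 a7
          have e1 : r = K + D + 1 := by
            by_contra hne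
            rw [hq'] at hMq'
            exact b4 (K + D + 1) le_rfl (by omega) hMq'
          exact ⟨by omega, by omega⟩
  · intro h
    have hs : Spec K D (hc (ex (2 * K) K h) h) (K + D + 1) 0 :=
      Or.inl ⟨by omega, (Exc_zero _ h).2 rfl, fun b hb => by omega, rfl⟩
    exact (Spec_unique (hgi _) hs).2

end Pool.Agent.W885.NUM
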